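import Pool.Agent.Work.MP_ad0563_ag_helper80.P4

/-!
# Block P5: `W × ℙ²` is not elliptically chain connected (given E2, P3)
-/

open MvPolynomial

namespace Pool.Agent.MPad0563

section closed

variable {ι : Type}

lemma isZClosed_empty [Nonempty ι] : IsZClosed (∅ : Set (PSpace ι)) := by
  refine ⟨{1}, ?_, ?_⟩
  · rintro F rfl
    exact ⟨0, isHomogeneous_one _ _⟩
  · ext p
    simp

lemma isZClosed_union {A B : Set (PSpace ι)} (hA : IsZClosed A) (hB : IsZClosed B) :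
    IsZClosed (A ∪ B) := by
  obtain ⟨S, hS, rfl⟩ := hA
  obtain ⟨T, hT, rfl⟩ := hB
  refine ⟨{H | ∃ F ∈ S, ∃ G ∈ T, H = F * G}, ?_, ?_⟩
  · rintro H ⟨F, hF, G, hG, rfl⟩
    obtain ⟨d, hd⟩ := hS F hF
    obtain ⟨e, he⟩ := hT G hG
    exact ⟨d + e, hd.mul he⟩
  · ext p
    simp only [Set.mem_union, Set.mem_ofPred_eq]
    constructor
    · rintro (h | h)
      · rintro H ⟨F, hF, G, hG, rfl⟩
        rw [map_mul, h F hF, zero_mul]
      · rintro H ⟨F, hF, G, hG, rfl⟩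
        rw [map_mul, h G hG, mul_zero]
    · intro h
      by_contra hcon
      push Not at hcon
      obtain ⟨⟨F, hF, hF0⟩, ⟨G, hG, hG0⟩⟩ := hcon
      have := h _ ⟨F, hF, G, hG, rfl⟩
      rw [map_mul] at this
      exact mul_ne_zero hF0 hG0 this

lemma isZClosed_biUnion [Nonempty ι] {α : Type} (s : Finset α) (Z : α → Set (PSpace ι))
    (hZ : ∀ i ∈ s, IsZClosed (Z i)) : IsZClosed (⋃ i ∈ s, Z i) := by
  classical
  induction s using Finset.induction_on with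
  | empty => simpa using isZClosed_empty
  | insert i s hi ih =>
    rw [Finset.set_biUnion_insert]
    exact isZClosed_union (hZ i (Finset.mem_insert_self _ _))
      (ih fun j hj => hZ j (Finset.mem_insert_of_mem hj))

end closed

lemma isZClosed_fibW (l : Fin 2 → ℂ) : IsZClosed (fibW l) := by
  refine ⟨Set.range fun j : Cub 2 × Fin 3 => X (1, j) * C (l 0) - X (0, j) * C (l 1), ?_, ?_⟩
  · rintro F ⟨j, rfl⟩
    refine ⟨1, ?_⟩
    apply IsHomogeneous.sub
    · have := (isHomogeneous_X ℂ ((1 : Fin 2), j)).mul (isHomogeneous_C _ (l 0))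
      rwa [add_zero] at this
    · have := (isHomogeneous_X ℂ ((0 : Fin 2), j)).mul (isHomogeneous_C _ (l 1))
      rwa [add_zero] at this
  · ext p
    simp only [fibW, Set.mem_ofPred_eq, Set.mem_range, forall_exists_index,
      forall_apply_eq_imp_iff, map_sub, map_mul, eval_X, eval_C, sub_eq_zero]

/-- two vectors are proportional -/
def Prop2 (l l' : Fin 2 → ℂ) : Prop := l 0 * l' 1 = l 1 * l' 0

lemma fibW_disjoint {l l' : Fin 2 → ℂ} (h : ¬ Prop2 l l') {p} (hp : p ∈ fibW l) :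
    p ∉ fibW l' := by
  intro hp'
  apply p.rep_nonzero
  have hd : l 0 * l' 1 - l 1 * l' 0 ≠ 0 := sub_ne_zero.2 h
  funext i
  obtain ⟨i, j⟩ := i
  have h1 := hp j
  have h2 := hp' j
  have e1 : p.rep (1, j) * (l 0 * l' 1 - l 1 * l' 0) = 0 := by
    linear_combination l' 1 * h1 - l 1 * h2
  have e0 : p.rep (0, j) * (l 0 * l' 1 - l 1 * l' 0) = 0 := by
    linear_combination l' 0 * h1 - l 0 * h2
  fin_cases i
  · exact (mul_eq_zero.1 e0).resolve_right hd
  · exact (mul_eq_zero.1 e1).resolve_right hd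

lemma fibW_eq_of_prop {l l' : Fin 2 → ℂ} (h : Prop2 l l') (hl : l ≠ 0) (hl' : l' ≠ 0) :
    fibW l ⊆ fibW l' := by
  intro p hp j
  have h1 := hp j
  unfold Prop2 at h
  by_cases h0 : l 0 = 0
  · have hl1 : l 1 ≠ 0 := by
      intro h1
      apply hl
      funext i
      fin_cases i
      · exact h0
      · exact h1
    have h2 : l' 0 = 0 := by
      rw [h0, zero_mul] at h
      exact (mul_eq_zero.1 h.symm).resolve_left hl1
    have h3 : p.rep (0, j) = 0 := by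
      rw [h0, mul_zero] at h1
      exact (mul_eq_zero.1 h1.symm).resolve_right hl1
    rw [h2, h3]
    ring
  · apply mul_left_cancel₀ h0
    linear_combination l' 0 * h1 - p.rep (0, j) * h

theorem stmt_P5_of (hSym : Stmt_Sym) (hE2 : Stmt_E2) (hP3 : Stmt_P3) : Stmt_P5 := by
  intro K _ _ t x y a b h
  classical
  rintro ⟨C, hcov, hell, G, hGf, hG0, hchain⟩
  have hind : AlgebraicIndependent ℂ ![t, x] := by
    have h1 := (hSym K t x y a b h).2.2.2.2.1
    have h2 := h1.comp ![(0 : Fin 4), 1] (by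
      intro i j hij
      fin_cases i <;> fin_cases j <;> simp at hij ⊢)
    convert h2 using 1
    funext i
    fin_cases i <;> rfl
  have halg : IsAlgebraic C.ψ.fieldRange (C.φ (t : K)) := hE2 _ (varW h) C hell t x y h.rel hind
  have hfin := hP3 K t x y a b h C hcov halg
  obtain ⟨p, hp, q, hq, hpG, hqG, hpq⟩ := stmt_P4_of hSym K t x y a b h G hGf hG0
  obtain ⟨s, hs, hsT, hconn, hpU, hqU⟩ := hchain p hp q hq hpG hqG
  set U := ⋃ τ ∈ s, C.member τ with hU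
  choose! Sf hSf hSf0 hSfU using hfin
  -- the finite set of fibres
  let S : Set (Fin 2 → ℂ) := ⋃ τ ∈ s, Sf τ
  have hSfin : S.Finite := hs.biUnion fun τ hτ => hSf τ (hsT hτ)
  have hS0 : ∀ l ∈ S, l ≠ 0 := by
    intro l hl
    obtain ⟨τ, hτ, hl⟩ := Set.mem_iUnion₂.1 hl
    exact hSf0 τ (hsT hτ) l hl
  have hUS : ∀ z ∈ U, ∃ l ∈ S, z ∈ fibW l := by
    intro z hz
    obtain ⟨τ, hτ, hz⟩ := Set.mem_iUnion₂.1 hz
    obtain ⟨l, hl, hzl⟩ := Set.mem_iUnion₂.1 (hSfU τ (hsT hτ) hz)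
    exact ⟨l, Set.mem_iUnion₂.2 ⟨τ, hτ, hl⟩, hzl⟩
  obtain ⟨l0, hl0, hpl0⟩ := hUS p hpU
  have hne : Nonempty (Fin 2 × (Cub 2 × Fin 3)) := ⟨(0, (Sum.inl (0, 0, 0), 0))⟩
  let S' : Finset (Fin 2 → ℂ) := hSfin.toFinset.filter (fun l => ¬ Prop2 l0 l)
  have hB : IsZClosed (⋃ l ∈ S', fibW l) := isZClosed_biUnion S' _ fun l _ => isZClosed_fibW l
  have hcov' : U ⊆ fibW l0 ∪ ⋃ l ∈ S', fibW l := by
    intro z hz
    obtain ⟨l, hl, hzl⟩ := hUS z hz
    by_cases hprop : Prop2 l0 l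
    · left
      have : Prop2 l l0 := by
        unfold Prop2 at hprop ⊢
        linear_combination -hprop
      exact fibW_eq_of_prop this (hS0 l hl) (hS0 l0 hl0) hzl
    · right
      exact Set.mem_iUnion₂.2 ⟨l, Finset.mem_filter.2 ⟨hSfin.mem_toFinset.2 hl, hprop⟩, hzl⟩
  have hdisj : U ∩ fibW l0 ∩ (⋃ l ∈ S', fibW l) = ∅ := by
    rw [Set.eq_empty_iff_forall_notMem]
    rintro z ⟨⟨_, hz0⟩, hz1⟩
    obtain ⟨l, hl, hzl⟩ := Set.mem_iUnion₂.1 hz1
    exact fibW_disjoint (Finset.mem_filter.1 hl).2 hz0 hzl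
  rcases hconn _ _ (isZClosed_fibW l0) hB hcov' hdisj with h1 | h1
  · exact hpq l0 (hS0 l0 hl0) hpl0 (h1 hqU)
  · have h2 := h1 hpU
    obtain ⟨l, hl, hzl⟩ := Set.mem_iUnion₂.1 h2
    exact fibW_disjoint (Finset.mem_filter.1 hl).2 hpl0 hzl

end Pool.Agent.MPad0563
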