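import Pool.Agent.Work.MP_ad0563_ag_helper80.P3b
import Pool.Agent.Work.MP_ad0563_ag_helper80.P5

/-!
# Block P3: members of covering families of `W × ℙ²` lie in finitely many fibres
-/

open MvPolynomial

namespace Pool.Agent.MPad0563

lemma isAlgebraic_of_adjoin {L : Type} [Field L] [Algebra ℂ L] (F0 : IntermediateField ℂ L)
    (S : Set L) (hS : ∀ z ∈ S, IsAlgebraic F0 z) {z : L}
    (hz : IsAlgebraic (IntermediateField.adjoin ℂ S) z) : IsAlgebraic F0 z := by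
  let M : IntermediateField F0 L := algebraicClosure F0 L
  have hle : IntermediateField.adjoin ℂ S ≤ M.restrictScalars ℂ := by
    apply IntermediateField.adjoin_le_iff.2
    intro x hx
    exact (mem_algebraicClosure_iff).2 (hS x hx)
  have hz' : IsAlgebraic M z := by
    obtain ⟨p, hp0, hp⟩ := hz
    let φ : IntermediateField.adjoin ℂ S →+* M :=
      { toFun := fun x => ⟨x, hle x.2⟩
        map_one' := rfl
        map_zero' := rfl
        map_add' := fun _ _ => rfl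
        map_mul' := fun _ _ => rfl }
    have hφ : Function.Injective φ := by
      intro x y hxy
      exact Subtype.ext (congrArg (fun z : M => (z : L)) hxy)
    refine ⟨p.map φ, (Polynomial.map_ne_zero_iff hφ).2 hp0, ?_⟩
    rw [Polynomial.aeval_def, Polynomial.eval₂_map]
    exact hp
  exact hz'.restrictScalars F0

lemma isZClosed_inter {ι : Type} {A B : Set (PSpace ι)} (hA : IsZClosed A) (hB : IsZClosed B) :
    IsZClosed (A ∩ B) := by
  obtain ⟨S, hS, rfl⟩ := hA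
  obtain ⟨T, hT, rfl⟩ := hB
  refine ⟨S ∪ T, ?_, ?_⟩
  · rintro F (hF | hF)
    · exact hS F hF
    · exact hT F hF
  · ext p
    simp only [Set.mem_inter_iff, Set.mem_ofPred_eq, Set.mem_union]
    constructor
    · rintro ⟨h1, h2⟩ F (hF | hF)
      · exact h1 F hF
      · exact h2 F hF
    · intro h
      exact ⟨fun F hF => h F (Or.inl hF), fun F hF => h F (Or.inr hF)⟩

lemma tens_ne_zero {κ : Type} {v : κ → ℂ} {l : Fin 2 → ℂ} (hv : v ≠ 0) (hl : l ≠ 0) :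
    tens v l ≠ 0 := by
  obtain ⟨k, hk⟩ : ∃ k, v k ≠ 0 := Function.ne_iff.1 hv
  obtain ⟨i, hi⟩ : ∃ i, l i ≠ 0 := Function.ne_iff.1 hl
  intro h0
  have := congrFun h0 (k, i)
  exact mul_ne_zero hk hi this

lemma member_fib_infinite {J : Type} [Fintype J] {W : ProjVar (Fin 2 × J)} (C : Family W)
    (s : Fin 2 → C.L) (c : J → C.L) (hf : ∀ i j, C.φ (W.f (i, j)) = s i * c j)
    (hs : s 0 ≠ 0) (halg : ∀ i i', IsAlgebraic C.ψ.fieldRange (s i / s i'))
    (hcov : C.IsCovering) {q : PSpace C.κ}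
    (l : Fin 2 → ℂ) (hl : l ≠ 0) {p : PSpace (Fin 2 × J)} (hpm : p ∈ C.member q)
    (hp : p ∈ fibJ J l) : (C.member q ∩ fibJ J l).Infinite := by
  intro hfin
  have hw : tens q.rep l ≠ 0 := tens_ne_zero q.rep_nonzero hl
  have h1 := pair_lift (fun i => C.φ (W.f i)) (fun j => C.ψ (C.T.f j)) s c hf hpm l hl hp hw
  obtain ⟨i0, hi0⟩ : ∃ i, W.f i ≠ 0 := Function.ne_iff.1 W.f_ne
  obtain ⟨k0, hk0⟩ : ∃ k, C.T.f k ≠ 0 := Function.ne_iff.1 C.T.f_ne
  have hf0 : (fun i => C.φ (W.f i)) ≠ 0 := by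
    intro h0
    exact hi0 ((map_eq_zero C.φ).1 (congrFun h0 i0))
  have hg0 : tens (fun j => C.ψ (C.T.f j)) s ≠ 0 := by
    intro h0
    have h2 := congrFun h0 (k0, 0)
    rcases mul_eq_zero.1 h2 with h3 | h3
    · exact hk0 ((map_eq_zero C.ψ).1 h3)
    · exact hs h3
  have h2 := stmt_P1 (Fin 2 × J) (C.κ × Fin 2) C.L (fun i => C.φ (W.f i))
    (tens (fun j => C.ψ (C.T.f j)) s) hf0 hg0 _ (closedPairs_snd _ _ h1)
    (hfin.subset (fun p' hp' => pair_descend (fun i => C.φ (W.f i)) (fun j => C.ψ (C.T.f j))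
      s c hf l hl hw hp'))
  have h3 : ∀ i, IsAlgebraic C.ψ.fieldRange (C.φ (W.f i) / C.φ (W.f i0)) := by
    intro i
    apply isAlgebraic_of_adjoin _ _ _ (h2 i i0)
    rintro _ ⟨⟨⟨k, a⟩, ⟨k', a'⟩⟩, rfl⟩
    have e : tens (fun j => C.ψ (C.T.f j)) s (k, a) / tens (fun j => C.ψ (C.T.f j)) s (k', a') =
        C.ψ (C.T.f k / C.T.f k') * (s a / s a') := by
      simp only [tens, map_div₀]
      rw [mul_div_mul_comm]
    show IsAlgebraic C.ψ.fieldRange
      (tens (fun j => C.ψ (C.T.f j)) s (k, a) / tens (fun j => C.ψ (C.T.f j)) s (k', a'))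
    rw [e]
    apply IsAlgebraic.mul _ (halg a a')
    have : C.ψ (C.T.f k / C.T.f k') ∈ C.ψ.fieldRange := ⟨_, rfl⟩
    exact isAlgebraic_algebraMap (⟨_, this⟩ : C.ψ.fieldRange)
  obtain ⟨τ, hτ, hτfin⟩ := exists_finite_member C i0 hi0 h3
  obtain ⟨S, hS, ⟨A, hA⟩, hcurve, hSU⟩ := hcov τ hτ
  exact (hcurve A hA).2.2.1 (hτfin.subset (hSU ▸ Set.subset_sUnion_of_mem hA))

theorem stmt_P3 : Stmt_P3 := by
  intro K _ _ t x y a b h C hcov halg q hq
  classical
  set s : Fin 2 → C.L := ![1, C.φ (t : K)] with hs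
  set c : Cub 2 × Fin 3 → C.L := fun j => C.φ (tens (cub ![1, t] x y) ![1, a, b] j : K) with hc
  have hf : ∀ i j, C.φ ((varW h).f (i, j)) = s i * c j := by
    intro i j
    have key : ∀ φ : K →ₐ[ℂ] C.L, φ (![1, t] i * tens (cub ![1, t] x y) ![1, a, b] j) =
        (![1, φ t] : Fin 2 → C.L) i * φ (tens (cub ![1, t] x y) ![1, a, b] j) := by
      intro φ
      rw [map_mul]
      congr 1
      fin_cases i
      · exact map_one φ
      · rfl
    exact key C.φ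
  have hs0 : s 0 ≠ 0 := one_ne_zero
  have halg' : ∀ i i', IsAlgebraic C.ψ.fieldRange (s i / s i') := by
    have h1 : ∀ i, IsAlgebraic C.ψ.fieldRange (s i) := by
      intro i
      fin_cases i
      · exact isAlgebraic_one
      · exact halg
    intro i i'
    rw [div_eq_mul_inv]
    exact (h1 i).mul (h1 i').inv
  have hfib : ∀ z ∈ C.member q, ∃ l : Fin 2 → ℂ, l ≠ 0 ∧ z ∈ fibW l := by
    intro z hz
    have hz' := closedPairs_fst _ _ hz
    obtain ⟨⟨i0, j0⟩, hij⟩ : ∃ j, z.rep j ≠ 0 := Function.ne_iff.1 z.rep_nonzero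
    refine ⟨fun i => z.rep (i, j0), ?_, ?_⟩
    · intro h0
      exact hij (congrFun h0 i0)
    · intro j
      have h1 := hz' 2 (X (1, j) * X (0, j0) - X (0, j) * X (1, j0))
        (IsHomogeneous.sub ((isHomogeneous_X ℂ _).mul (isHomogeneous_X ℂ _))
          ((isHomogeneous_X ℂ _).mul (isHomogeneous_X ℂ _))) (by
          simp only [map_sub, map_mul, aeval_X, hf]
          ring)
      simp only [map_sub, map_mul, eval_X, sub_eq_zero] at h1
      exact h1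
  obtain ⟨Zs, hZfin, -, hcurve, hU⟩ := hcov q hq
  have hkey : ∀ l : Fin 2 → ℂ, l ≠ 0 → ∀ z ∈ C.member q, z ∈ fibW l → ∃ Z ∈ Zs, Z ⊆ fibW l := by
    intro l hl z hz hzl
    have hinf := member_fib_infinite C s c hf hs0 halg' hcov l hl hz hzl
    by_contra hcon
    push Not at hcon
    apply hinf
    have h1 : C.member q ∩ fibJ (Cub 2 × Fin 3) l = ⋃ Z ∈ Zs, Z ∩ fibW l := by
      rw [hU, Set.sUnion_eq_biUnion, Set.iUnion₂_inter]
      rfl
    rw [h1]
    apply hZfin.biUnion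
    intro Z hZ
    apply (hcurve Z hZ).2.2.2 _ (isZClosed_inter (hcurve Z hZ).1 (isZClosed_fibW l))
      Set.inter_subset_left
    intro h2
    exact hcon Z hZ (Set.inter_eq_left.1 h2)
  choose! lZ hlZ0 hlZ using (fun (Z : Set (PSpace (Fin 2 × (Cub 2 × Fin 3))))
    (hZ : ∃ l : Fin 2 → ℂ, l ≠ 0 ∧ Z ⊆ fibW l) => hZ)
  refine ⟨lZ '' {Z ∈ Zs | ∃ l : Fin 2 → ℂ, l ≠ 0 ∧ Z ⊆ fibW l},
    (hZfin.subset (Set.sep_subset _ _)).image _, ?_, ?_⟩
  · rintro _ ⟨Z, ⟨-, hZ⟩, rfl⟩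
    exact hlZ0 Z hZ
  · intro z hz
    obtain ⟨l, hl, hzl⟩ := hfib z hz
    obtain ⟨Z, hZ, hZl⟩ := hkey l hl z hz hzl
    have hZ' : ∃ l : Fin 2 → ℂ, l ≠ 0 ∧ Z ⊆ fibW l := ⟨l, hl, hZl⟩
    refine Set.mem_iUnion₂.2 ⟨lZ Z, ⟨Z, ⟨hZ, hZ'⟩, rfl⟩, ?_⟩
    obtain ⟨z', hz'⟩ := (hcurve Z hZ).2.2.1.nonempty
    have hprop : Prop2 l (lZ Z) := by
      by_contra hnp
      exact fibW_disjoint hnp (hZl hz') (hlZ Z hZ' hz')
    exact fibW_eq_of_prop hprop hl (hlZ0 Z hZ') hzl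

end Pool.Agent.MPad0563
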