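import Pool.Agent.Work.MP_ad0563_ag.Cubic
import Pool.Agent.Work.MP_ad0563_ag.BlockA

/-!
# Blocks Y4, Y4': plane cubics and the projective line
-/

open MvPolynomial

namespace Pool.Agent.MPad0563

section Y4

variable (c : ℂ)

/-- `-(X³ + c)` as a polynomial. -/
noncomputable def y4G : Polynomial ℂ := -(Polynomial.X ^ 3 + Polynomial.C c)

lemma y4G_not_cube (hc : c ≠ 0) (p : Polynomial ℂ) : p ^ 3 ≠ y4G c := by
  intro h
  obtain ⟨r, hr⟩ : ∃ r : ℂ, r ^ 3 = -c := by
    obtain ⟨r, hr⟩ := IsAlgClosed.exists_pow_nat_eq (-c) (show 0 < 3 by norm_num)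
    exact ⟨r, hr⟩
  have hr0 : r ≠ 0 := by
    rintro rfl
    apply hc
    have : (0:ℂ) ^ 3 = 0 := by norm_num
    rw [this] at hr
    exact (neg_eq_zero.1 hr.symm)
  have h1 : (p ^ 3).eval r = 0 := by
    rw [h]; simp [y4G, hr]
  have h2 : p.eval r = 0 := by
    rw [Polynomial.eval_pow] at h1
    exact (pow_eq_zero_iff (by norm_num)).1 h1
  have h3 : (Polynomial.derivative (p ^ 3)).eval r = 0 := by
    rw [Polynomial.derivative_pow]
    simp [h2]
  rw [h] at h3
  simp [y4G, hr0] at h3
  norm_num at h3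

/-- The function field of the plane cubic. -/
noncomputable abbrev y4Poly : Polynomial (RatFunc ℂ) :=
  Polynomial.X ^ 3 - Polynomial.C (algebraMap (Polynomial ℂ) (RatFunc ℂ) (y4G c))

lemma y4Poly_irr (hc : c ≠ 0) : Irreducible (y4Poly c) := by
  apply X_pow_sub_C_irreducible_of_prime Nat.prime_three
  intro b h
  have hb : IsIntegral (Polynomial ℂ) b := by
    apply IsIntegral.of_pow (n := 3) (by norm_num)
    rw [h]
    exact isIntegral_algebraMap
  obtain ⟨p, hp⟩ := IsIntegrallyClosed.isIntegral_iff.1 hb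
  apply y4G_not_cube c hc p
  apply IsFractionRing.injective (Polynomial ℂ) (RatFunc ℂ)
  rw [map_pow, hp, h]

end Y4

lemma trdeg_ratFunc : Algebra.trdeg ℂ (RatFunc ℂ) = 1 := by
  have : Algebra.IsAlgebraic (Polynomial ℂ) (RatFunc ℂ) :=
    IsLocalization.isAlgebraic (RatFunc ℂ) (nonZeroDivisors (Polynomial ℂ))
  have h3 : Algebra.trdeg (Polynomial ℂ) (RatFunc ℂ) = 0 := trdeg_eq_zero
  have h4 := trdeg_add_eq ℂ (Polynomial ℂ) (A := RatFunc ℂ)
  rw [← h4, Polynomial.trdeg_of_isDomain, h3, add_zero]

lemma trdeg_one_of_algebraic_ratFunc (K : Type) [Field K] [Algebra ℂ K] [Algebra (RatFunc ℂ) K]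
    [IsScalarTower ℂ (RatFunc ℂ) K] [Algebra.IsAlgebraic (RatFunc ℂ) K] :
    Algebra.trdeg ℂ K = 1 := by
  have h1 := trdeg_add_eq ℂ (RatFunc ℂ) (A := K)
  rw [← h1, trdeg_ratFunc, trdeg_eq_zero, add_zero]

/-- Existence of the function field of the plane cubic. -/
lemma y4_field (c : ℂ) (hc : c ≠ 0) : ∃ (K : Type) (_ : Field K) (_ : Algebra ℂ K) (x y : K),
    x ^ 3 + y ^ 3 + algebraMap ℂ K c = 0 ∧ Transcendental ℂ x ∧
    IntermediateField.adjoin ℂ {x, y} = ⊤ ∧ Algebra.trdeg ℂ K = 1 := by
  have : Fact (Irreducible (y4Poly c)) := ⟨y4Poly_irr c hc⟩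
  let K := AdjoinRoot (y4Poly c)
  let x : K := AdjoinRoot.of (y4Poly c) RatFunc.X
  let y : K := AdjoinRoot.root (y4Poly c)
  have hne : y4Poly c ≠ 0 := (y4Poly_irr c hc).ne_zero
  have hof : ∀ r : RatFunc ℂ, AdjoinRoot.of (y4Poly c) r = algebraMap (RatFunc ℂ) K r :=
    fun r => rfl
  have hrel : y ^ 3 = AdjoinRoot.of (y4Poly c)
      (algebraMap (Polynomial ℂ) (RatFunc ℂ) (y4G c)) := by
    have h1 : Polynomial.eval₂ (AdjoinRoot.of (y4Poly c)) (AdjoinRoot.root (y4Poly c))
      (y4Poly c) = 0 := AdjoinRoot.eval₂_root _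
    rw [Polynomial.eval₂_sub, Polynomial.eval₂_pow, Polynomial.eval₂_X, Polynomial.eval₂_C,
      sub_eq_zero] at h1
    exact h1
  have hfin : Algebra.IsAlgebraic (RatFunc ℂ) K := by
    have : FiniteDimensional (RatFunc ℂ) K :=
      (AdjoinRoot.powerBasis hne).finite
    infer_instance
  have hx : Transcendental ℂ x := by
    intro halg
    apply RatFunc.transcendental_X (K := ℂ)
    have h3 : IsAlgebraic ℂ (algebraMap (RatFunc ℂ) K RatFunc.X) := halg
    exact (isAlgebraic_algebraMap_iff (algebraMap (RatFunc ℂ) K).injective).1 h3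
  refine ⟨K, inferInstance, inferInstance, x, y, ?_, hx, ?_, ?_⟩
  · rw [hrel]
    have h4 : algebraMap (Polynomial ℂ) (RatFunc ℂ) (y4G c) =
        -(RatFunc.X ^ 3 + algebraMap ℂ (RatFunc ℂ) c) := by
      simp [y4G]
    rw [h4, map_neg, map_add, map_pow]
    have h5 : algebraMap ℂ K c = AdjoinRoot.of (y4Poly c) (algebraMap ℂ (RatFunc ℂ) c) := by
      rw [hof, ← IsScalarTower.algebraMap_apply]
    rw [h5]
    ring
  · rw [eq_top_iff]
    intro z _
    have hr : ∀ r : RatFunc ℂ, algebraMap (RatFunc ℂ) K r ∈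
        IntermediateField.adjoin ℂ ({x, y} : Set K) := by
      intro r
      have h1 := IntermediateField.adjoin_map ℂ {(RatFunc.X : RatFunc ℂ)}
        (IsScalarTower.toAlgHom ℂ (RatFunc ℂ) K)
      rw [RatFunc.adjoin_X, Set.image_singleton] at h1
      have h2 : algebraMap (RatFunc ℂ) K r ∈
          IntermediateField.map (IsScalarTower.toAlgHom ℂ (RatFunc ℂ) K) ⊤ :=
        ⟨r, IntermediateField.mem_top, rfl⟩
      rw [h1] at h2
      refine IntermediateField.adjoin.mono ℂ _ _ ?_ h2
      rw [Set.singleton_subset_iff]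
      exact Set.mem_insert _ _
    obtain ⟨p, rfl⟩ := AdjoinRoot.mk_surjective z
    rw [← AdjoinRoot.aeval_eq, Polynomial.aeval_eq_sum_range]
    apply sum_mem
    intro i _
    rw [Algebra.smul_def]
    apply mul_mem (hr _)
    apply pow_mem
    apply IntermediateField.subset_adjoin
    exact Set.mem_insert_of_mem _ rfl
  · exact trdeg_one_of_algebraic_ratFunc K

lemma y4_elliptic (c : ℂ) (hc : c ≠ 0) (K : Type) [Field K] [Algebra ℂ K] (x y : K)
    (hrel : x ^ 3 + y ^ 3 + algebraMap ℂ K c = 0) (hx : Transcendental ℂ x)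
    (hgen : IntermediateField.adjoin ℂ {x, y} = ⊤) : IsEllipticField K := by
  set C := algebraMap ℂ K c with hC
  have hC0 : C ≠ 0 := by
    rw [hC]; simpa using hc
  have : CharZero K := charZero_of_injective_algebraMap (algebraMap ℂ K).injective
  have hs : x + y ≠ 0 := by
    intro h
    apply hC0
    have h1 : x ^ 3 + y ^ 3 = (x + y) * (x ^ 2 - x * y + y ^ 2) := by ring
    rw [h1, h, zero_mul, zero_add] at hrel
    exact hrel
  have hX : -12 * C / (x + y) ≠ 0 := by
    apply div_ne_zero _ hs
    apply mul_ne_zero _ hC0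
    norm_num
  refine ⟨0, -432 * c ^ 2, -12 * C / (x + y), -36 * C * (x - y) / (x + y), ?_, ?_, ?_, ?_⟩
  · have : c ^ 4 ≠ 0 := pow_ne_zero _ hc
    intro h
    apply this
    have h1 : (27 * 432 ^ 2 : ℂ) * c ^ 4 = 0 := by linear_combination h
    rcases mul_eq_zero.1 h1 with h2 | h2
    · norm_num at h2
    · exact h2
  · rw [map_zero, zero_mul, add_zero, map_mul, map_pow, ← hC]
    have h432 : algebraMap ℂ K (-432) = -432 := by
      rw [map_neg]; congr 1; exact map_ofNat (algebraMap ℂ K) 432
    rw [h432]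
    field_simp
    linear_combination (1728 : K) * hrel
  · intro halg
    apply hx
    have hCalg : IsAlgebraic ℂ C := isAlgebraic_algebraMap c
    have hsalg : IsAlgebraic ℂ (x + y) := by
      have h1 : x + y = -12 * C * (-12 * C / (x + y))⁻¹ := by field_simp
      rw [h1]
      refine IsAlgebraic.mul (IsAlgebraic.mul ?_ hCalg) halg.inv
      have : (-12 : K) = algebraMap ℂ K (-12) := by
        rw [map_neg]; congr 1; exact (map_ofNat (algebraMap ℂ K) 12).symm
      rw [this]
      exact isAlgebraic_algebraMap _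
    have hnum : ∀ n : ℕ, IsAlgebraic ℂ (n : K) := fun n => by
      have : (n : K) = algebraMap ℂ K n := by rw [map_natCast]
      rw [this]
      exact isAlgebraic_algebraMap _
    have hdalg : IsAlgebraic ℂ (x - y) := by
      have h2 : (x - y) ^ 2 = ((4 : ℕ) : K) * (-C) * (x + y)⁻¹ * ((3 : ℕ) : K)⁻¹ -
          (x + y) ^ 2 * ((3 : ℕ) : K)⁻¹ := by
        push_cast
        field_simp
        linear_combination (4 : K) * hrel
      apply IsAlgebraic.of_pow (n := 2) (by norm_num)
      rw [h2]
      exact ((((hnum 4).mul hCalg.neg).mul hsalg.inv).mul (hnum 3).inv).sub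
        ((hsalg.pow 2).mul (hnum 3).inv)
    have h3 : x = ((x + y) + (x - y)) * ((2 : ℕ) : K)⁻¹ := by push_cast; ring
    rw [h3]
    exact (hsalg.add hdalg).mul (hnum 2).inv
  · rw [eq_top_iff, ← hgen]
    set S := IntermediateField.adjoin ℂ
      ({-12 * C / (x + y), -36 * C * (x - y) / (x + y)} : Set K) with hS
    have m1 : -12 * C / (x + y) ∈ S := IntermediateField.subset_adjoin _ _ (by simp)
    have m2 : -36 * C * (x - y) / (x + y) ∈ S := IntermediateField.subset_adjoin _ _ (by simp)
    have mC : C ∈ S := S.algebraMap_mem c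
    have mn : ∀ n : ℕ, (n : K) ∈ S := fun n => by
      have : (n : K) = algebraMap ℂ K n := by rw [map_natCast]
      rw [this]; exact S.algebraMap_mem _
    have ms : x + y ∈ S := by
      have h1 : x + y = -((12 : ℕ) : K) * C * (-12 * C / (x + y))⁻¹ := by push_cast; field_simp
      rw [h1]
      exact mul_mem (mul_mem (neg_mem (mn 12)) mC) (inv_mem m1)
    have md : x - y ∈ S := by
      have h1 : x - y = (-36 * C * (x - y) / (x + y)) * (((3 : ℕ) : K))⁻¹ *
          (-12 * C / (x + y))⁻¹ := by push_cast; field_simp; ring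
      rw [h1]
      exact mul_mem (mul_mem m2 (inv_mem (mn 3))) (inv_mem m1)
    apply IntermediateField.adjoin_le_iff.2
    rintro z (rfl | rfl)
    · have h3 : z = ((z + y) + (z - y)) * ((2 : ℕ) : K)⁻¹ := by push_cast; ring
      rw [h3]
      exact mul_mem (add_mem ms md) (inv_mem (mn 2))
    · have h3 : z = ((x + z) - (x - z)) * ((2 : ℕ) : K)⁻¹ := by push_cast; ring
      rw [h3]
      exact mul_mem (sub_mem ms md) (inv_mem (mn 2))

/-- Specialisation of forms vanishing at the generic point of the cubic to the affine points. -/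
lemma y4_affine (c : ℂ) (hc : c ≠ 0) (K : Type) [Field K] [Algebra ℂ K] (x y : K)
    (hrel : x ^ 3 + y ^ 3 + algebraMap ℂ K c = 0) (hx : Transcendental ℂ x)
    (F : MvPolynomial (Fin 3) ℂ) (hF : aeval ![1, x, y] F = 0) (a b : ℂ)
    (hab : a ^ 3 + b ^ 3 + c = 0) : eval ![1, a, b] F = 0 := by
  let φ : Polynomial ℂ →+* K := ((Polynomial.aeval x : Polynomial ℂ →ₐ[ℂ] K) :
    Polynomial ℂ →+* K)
  have hφ : Function.Injective φ := by
    have := transcendental_iff_injective.1 hx
    exact this
  let P : Polynomial (Polynomial ℂ) := aeval ![1, Polynomial.C Polynomial.X, Polynomial.X] F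
  have key : ∀ (M : Type) [Field M] [Algebra ℂ M] (x' y' : M),
      aeval ![1, x', y'] F = P.eval₂ ((Polynomial.aeval x' : Polynomial ℂ →ₐ[ℂ] M) :
        Polynomial ℂ →+* M) y' := by
    intro M _ _ x' y'
    have h1 : (eval₂Hom (algebraMap ℂ M) ![1, x', y']) =
        (Polynomial.eval₂RingHom ((Polynomial.aeval x' : Polynomial ℂ →ₐ[ℂ] M) :
        Polynomial ℂ →+* M) y').comp (eval₂Hom (algebraMap ℂ (Polynomial (Polynomial ℂ)))
          ![1, Polynomial.C Polynomial.X, Polynomial.X]) := by
      apply MvPolynomial.ringHom_ext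
      · intro r
        simp only [RingHom.comp_apply, coe_eval₂Hom, eval₂_C]
        rw [Polynomial.algebraMap_apply, Polynomial.algebraMap_apply]
        simp
      · intro i
        fin_cases i <;> simp
    exact congrArg (fun ψ => ψ F) h1
  have hP : P.eval₂ φ y = 0 := by rw [← key K x y, hF]
  have hG : y ^ 3 = φ (y4G c) := by
    show y ^ 3 = Polynomial.aeval x (y4G c)
    simp only [y4G, map_neg, map_add, map_pow, Polynomial.aeval_X, Polynomial.aeval_C]
    linear_combination hrel
  obtain ⟨Q, hQ⟩ := cubic_dvd_gen φ hφ (y4G c) (y4G_not_cube c hc) y hG P hP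
  have h2 := key ℂ a b
  rw [hQ, Polynomial.eval₂_mul, Polynomial.eval₂_sub, Polynomial.eval₂_pow, Polynomial.eval₂_X,
    Polynomial.eval₂_C] at h2
  have h3 : b ^ 3 - ((Polynomial.aeval a : Polynomial ℂ →ₐ[ℂ] ℂ) : Polynomial ℂ →+* ℂ) (y4G c) =
      0 := by
    show b ^ 3 - Polynomial.aeval a (y4G c) = 0
    simp only [y4G, map_neg, map_add, map_pow, Polynomial.aeval_X, Polynomial.aeval_C]
    show b ^ 3 - -(a ^ 3 + c) = 0
    linear_combination hab
  rw [h3, zero_mul] at h2
  exact h2

lemma y4_pts (c : ℂ) (hc : c ≠ 0) (K : Type) [Field K] [Algebra ℂ K] (x y : K)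
    (hrel : x ^ 3 + y ^ 3 + algebraMap ℂ K c = 0) (hx : Transcendental ℂ x) :
    closedPts ![1, x, y] = {p | (p.rep 1) ^ 3 + (p.rep 2) ^ 3 + c * (p.rep 0) ^ 3 = 0} := by
  ext p
  simp only [Set.mem_ofPred_eq]
  constructor
  · intro hp
    have h := hp 3 (X 1 ^ 3 + X 2 ^ 3 + C c * X 0 ^ 3) (by
      refine IsHomogeneous.add (IsHomogeneous.add ?_ ?_) ?_
      · exact isHomogeneous_X_pow 1 3
      · exact isHomogeneous_X_pow 2 3
      · have := (isHomogeneous_C (Fin 3) c).mul (isHomogeneous_X_pow (R := ℂ) (0 : Fin 3) 3)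
        rwa [zero_add] at this) (by
      simp only [map_add, map_mul, map_pow, aeval_X, aeval_C]
      simp
      exact hrel)
    simpa using h
  · intro hp d F hF h0
    set v := p.rep with hv
    have hv0 : v ≠ 0 := p.rep_nonzero
    have haff : ∀ w : Fin 3 → ℂ, w 0 ≠ 0 → (w 1) ^ 3 + (w 2) ^ 3 + c * (w 0) ^ 3 = 0 →
        eval w F = 0 := by
      intro w hw0 hw
      have h1 := y4_affine c hc K x y hrel hx F h0 (w 1 / w 0) (w 2 / w 0) (by
        field_simp
        linear_combination hw)
      have h2 := eval_form_smul hF (w 0) ![1, w 1 / w 0, w 2 / w 0]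
      rw [h1, mul_zero] at h2
      rw [← h2]
      congr 2
      ext i
      fin_cases i
      · simp
      · simp; field_simp
      · simp; field_simp
    by_cases hv00 : v 0 = 0
    · have hv2 : v 2 ≠ 0 := by
        intro h2
        apply hv0
        rw [hv00, h2] at hp
        have h1 : v 1 = 0 := by
          have : (v 1) ^ 3 = 0 := by linear_combination hp
          exact (pow_eq_zero_iff (by norm_num)).1 this
        ext i
        fin_cases i
        · exact hv00
        · exact h1
        · exact h2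
      let g : ℂ → Fin 3 → ℂ := fun e => ![e, v 1,
        v 2 * (1 - c * e ^ 3 / (v 2) ^ 3) ^ (((3 : ℕ) : ℂ)⁻¹)]
      have hg0 : g 0 = v := by
        ext i
        fin_cases i
        · exact hv00.symm
        · rfl
        · simp [g]
      have hcont : ContinuousAt g 0 := by
        rw [continuousAt_pi]
        intro i
        fin_cases i
        · exact continuousAt_id
        · exact continuousAt_const
        · show ContinuousAt (fun e : ℂ => v 2 * (1 - c * e ^ 3 / (v 2) ^ 3) ^ (((3 : ℕ) : ℂ)⁻¹)) 0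
          apply ContinuousAt.mul continuousAt_const
          apply ContinuousAt.cpow
          · fun_prop
          · exact continuousAt_const
          · simp
      have hev : ContinuousAt (fun e => eval (g e) F) 0 :=
        (MvPolynomial.continuous_eval F).continuousAt.comp hcont
      have hz : ∀ᶠ e in nhdsWithin (0 : ℂ) {0}ᶜ, eval (g e) F = 0 := by
        filter_upwards [self_mem_nhdsWithin] with e he
        apply haff (g e) he
        have h3 : ((1 - c * e ^ 3 / (v 2) ^ 3) ^ (((3 : ℕ) : ℂ)⁻¹)) ^ 3 =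
          1 - c * e ^ 3 / (v 2) ^ 3 := Complex.cpow_nat_inv_pow _ (by norm_num)
        show (v 1) ^ 3 + (v 2 * (1 - c * e ^ 3 / (v 2) ^ 3) ^ (((3 : ℕ) : ℂ)⁻¹)) ^ 3 +
          c * e ^ 3 = 0
        rw [mul_pow, h3]
        rw [hv00] at hp
        field_simp
        linear_combination hp
      have hlim := hev.tendsto.mono_left (nhdsWithin_le_nhds (s := {0}ᶜ))
      have hlim0 : Filter.Tendsto (fun e => eval (g e) F) (nhdsWithin (0 : ℂ) {0}ᶜ)
          (nhds 0) := by
        refine Filter.Tendsto.congr' ?_ tendsto_const_nhds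
        filter_upwards [hz] with e he using he.symm
      have h4 := tendsto_nhds_unique hlim hlim0
      simp only [hg0] at h4
      exact h4
    · exact haff v hv00 hp

theorem stmt_Y4 : Stmt_Y4 := by
  intro c hc
  obtain ⟨K, _, _, x, y, hrel, hx, hgen, htr⟩ := y4_field c hc
  refine ⟨{ K := K, f := ![1, x, y], f_ne := ?_, gen := ?_ }, ?_, rfl, hrel, htr, ?_⟩
  · intro h
    have := congrFun h 0
    simp at this
  · apply adjoin_ratios_eq_top _ 0 rfl _ hgen
    rintro s (rfl | rfl)
    · exact ⟨1, rfl⟩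
    · exact ⟨2, rfl⟩
  · exact y4_elliptic c hc K x y hrel hx hgen
  · exact y4_pts c hc K x y hrel hx

theorem stmt_Y4' : Stmt_Y4' := by
  refine ⟨{ K := RatFunc ℂ, f := ![1, RatFunc.X], f_ne := ?_, gen := ?_ }, rfl,
    RatFunc.transcendental_X, trdeg_ratFunc, ?_⟩
  · intro h
    have := congrFun h 0
    simp at this
  · apply adjoin_ratios_eq_top _ 0 rfl _ RatFunc.adjoin_X
    rintro s rfl
    exact ⟨1, rfl⟩
  · rw [Set.eq_univ_iff_forall]
    intro p d F hF h0
    set v := p.rep with hv
    have haff : ∀ a : ℂ, eval ![1, a] F = 0 := by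
      intro a
      let P : Polynomial ℂ := aeval ![1, Polynomial.X] F
      have h1 : algebraMap (Polynomial ℂ) (RatFunc ℂ) P = 0 := by
        rw [← h0]
        show algebraMap (Polynomial ℂ) (RatFunc ℂ) (aeval ![1, Polynomial.X] F) =
          aeval ![1, RatFunc.X] F
        rw [← aeval_algebraMap_apply]
        congr 2
        ext i
        fin_cases i
        · simp
        · simp
      have h2 : P = 0 := by
        apply IsFractionRing.injective (Polynomial ℂ) (RatFunc ℂ)
        rw [h1, map_zero]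
      have h3 : Polynomial.aeval a P = eval ![1, a] F := by
        show Polynomial.aeval a (aeval ![1, Polynomial.X] F) = _
        rw [← aeval_eq_eval]
        have h4 : (Polynomial.aeval a : Polynomial ℂ →ₐ[ℂ] ℂ).comp
            (aeval ![1, Polynomial.X] : MvPolynomial (Fin 2) ℂ →ₐ[ℂ] Polynomial ℂ) =
            (aeval ![1, a] : MvPolynomial (Fin 2) ℂ →ₐ[ℂ] ℂ) := by
          ext i
          fin_cases i <;> simp
        exact congrArg (fun ψ => ψ F) h4
      rw [← h3, h2, map_zero]
    have haff2 : ∀ w : Fin 2 → ℂ, w 0 ≠ 0 → eval w F = 0 := by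
      intro w hw
      have h1 := haff (w 1 / w 0)
      have h2 := eval_form_smul hF (w 0) ![1, w 1 / w 0]
      rw [h1, mul_zero] at h2
      rw [← h2]
      congr 2
      ext i
      fin_cases i
      · simp
      · simp; field_simp
    let g : ℂ → Fin 2 → ℂ := fun e => ![v 0 + e, v 1]
    have hg0 : g 0 = v := by
      ext i
      fin_cases i
      · simp [g]
      · rfl
    have hcont : ContinuousAt g 0 := by
      rw [continuousAt_pi]
      intro i
      fin_cases i
      · show ContinuousAt (fun e : ℂ => v 0 + e) 0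
        fun_prop
      · exact continuousAt_const
    have hev : ContinuousAt (fun e => eval (g e) F) 0 :=
      (MvPolynomial.continuous_eval F).continuousAt.comp hcont
    have hz : ∀ᶠ e in nhdsWithin (0 : ℂ) {0}ᶜ, eval (g e) F = 0 := by
      by_cases hv00 : v 0 = 0
      · filter_upwards [self_mem_nhdsWithin] with e he
        apply haff2
        show v 0 + e ≠ 0
        rw [hv00, zero_add]
        exact he
      · have h5 : ∀ᶠ e in nhds (0 : ℂ), v 0 + e ≠ 0 := by
          have : ContinuousAt (fun e : ℂ => v 0 + e) 0 := by fun_prop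
          apply this.eventually_ne
          simpa using hv00
        filter_upwards [h5.filter_mono nhdsWithin_le_nhds] with e he
        exact haff2 _ he
    have hlim := hev.tendsto.mono_left (nhdsWithin_le_nhds (s := {0}ᶜ))
    have hlim0 : Filter.Tendsto (fun e => eval (g e) F) (nhdsWithin (0 : ℂ) {0}ᶜ)
        (nhds 0) := by
      refine Filter.Tendsto.congr' ?_ tendsto_const_nhds
      filter_upwards [hz] with e he using he.symm
    have h4 := tendsto_nhds_unique hlim hlim0
    simp only [hg0] at h4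
    exact h4

end Pool.Agent.MPad0563
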