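import Pool.Agent.Work.MP_ad0563_ag.BlockA
import Pool.Agent.Work.MP_ad0563_ag_h67.E2
import Pool.Agent.Work.MP_ad0563_ag_helper72.CurveA6
import Pool.Agent.Work.MP_ad0563_ag_helper72.Proper

/-!
# Block P3, part a: generically finite families have a finite member
-/

open MvPolynomial

namespace Pool.Agent.MPad0563

/-- Elements of the function field are quotients of forms. -/
lemma exists_forms {κ : Type} (T : ProjVar κ) (z : T.K) :
    ∃ (e : ℕ) (F G : MvPolynomial κ ℂ), IsForm F e ∧ IsForm G e ∧ aeval T.f G ≠ 0 ∧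
      z = aeval T.f F / aeval T.f G := by
  obtain ⟨j0, hj0⟩ : ∃ j, T.f j ≠ 0 := Function.ne_iff.1 T.f_ne
  have hz : z ∈ IntermediateField.adjoin ℂ (Set.range fun j => T.f j / T.f j0) := by
    rw [gen_ratios T j0 hj0]
    exact IntermediateField.mem_top
  rw [IntermediateField.mem_adjoin_range_iff] at hz
  obtain ⟨r, s, hrs⟩ := hz
  by_cases hs : aeval (fun j => T.f j / T.f j0) s = 0
  · refine ⟨0, 0, 1, isHomogeneous_zero _ _ _, isHomogeneous_one _ _, by simp, ?_⟩
    rw [hrs, hs, div_zero, map_zero, zero_div]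
  · obtain ⟨F, hF, hF'⟩ := exists_homog r j0 (max r.totalDegree s.totalDegree) (le_max_left _ _)
    obtain ⟨G, hG, hG'⟩ := exists_homog s j0 (max r.totalDegree s.totalDegree) (le_max_right _ _)
    have e1 := hF' T.K T.f hj0
    have e2 := hG' T.K T.f hj0
    have hp : T.f j0 ^ (max r.totalDegree s.totalDegree) ≠ 0 := pow_ne_zero _ hj0
    refine ⟨_, F, G, hF, hG, ?_, ?_⟩
    · rw [e2]
      exact mul_ne_zero hp hs
    · rw [e1, e2, hrs, mul_div_mul_left _ _ hp]

/-- Common denominators. -/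
lemma exists_common {κ : Type} (T : ProjVar κ) (m : ℕ) (c : ℕ → T.K) :
    ∃ (e : ℕ) (A : ℕ → MvPolynomial κ ℂ) (w : T.K), w ≠ 0 ∧
      ∀ k ∈ Finset.range (m + 1), IsForm (A k) e ∧ aeval T.f (A k) = w * c k := by
  classical
  choose e F G hF hG hG0 hc using fun k => exists_forms T (c k)
  refine ⟨∑ k ∈ Finset.range (m + 1), e k,
    fun k => F k * ∏ k' ∈ (Finset.range (m + 1)).erase k, G k',
    ∏ k ∈ Finset.range (m + 1), aeval T.f (G k), ?_, ?_⟩
  · exact Finset.prod_ne_zero_iff.2 fun k _ => hG0 k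
  · intro k hk
    constructor
    · rw [← Finset.add_sum_erase _ _ hk]
      apply (hF k).mul
      exact IsHomogeneous.prod _ _ _ fun k' _ => hG k'
    · rw [map_mul, map_prod, ← Finset.mul_prod_erase _ _ hk]
      rw [hc k]
      have := hG0 k
      field_simp

/-- Algebraicity gives a biform. -/
lemma exists_biform {ι : Type} {W : ProjVar ι} (C : Family W) (i0 i : ι) (hi0 : W.f i0 ≠ 0)
    (halg : IsAlgebraic C.ψ.fieldRange (C.φ (W.f i) / C.φ (W.f i0))) :
    ∃ (m e : ℕ) (A : ℕ → MvPolynomial C.κ ℂ), (∀ k ∈ Finset.range (m + 1), IsForm (A k) e) ∧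
      aeval C.T.f (A m) ≠ 0 ∧ ∀ p τ, (p, τ) ∈ C.total →
        ∑ k ∈ Finset.range (m + 1), eval τ.rep (A k) * p.rep i ^ k * p.rep i0 ^ (m - k) = 0 := by
  classical
  obtain ⟨P, hP0, hP⟩ := halg
  set m := P.natDegree with hm
  have hcoef : ∀ k, ∃ c : C.T.K, C.ψ c = (P.coeff k : C.L) := fun k => (P.coeff k).2
  choose c hc using hcoef
  have hcm : c m ≠ 0 := by
    intro h0
    have h1 : (P.coeff m : C.L) = 0 := by rw [← hc, h0, map_zero]
    have h2 : P.coeff m = 0 := Subtype.ext h1
    rw [hm, Polynomial.coeff_natDegree, Polynomial.leadingCoeff_eq_zero] at h2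
    exact hP0 h2
  obtain ⟨e, A, w, hw, hA⟩ := exists_common C.T m c
  have hfi0 : C.φ (W.f i0) ≠ 0 := (map_ne_zero C.φ).2 hi0
  refine ⟨m, e, A, fun k hk => (hA k hk).1, ?_, ?_⟩
  · rw [(hA m (Finset.self_mem_range_succ m)).2]
    exact mul_ne_zero hw hcm
  · intro p τ hpτ
    let B : MvPolynomial (ι ⊕ C.κ) ℂ := ∑ k ∈ Finset.range (m + 1),
      rename Sum.inr (A k) * X (Sum.inl i) ^ k * X (Sum.inl i0) ^ (m - k)
    have hren : ∀ (M : Type) [Field M] [Algebra ℂ M] (a : ι → M) (b : C.κ → M) (k : ℕ),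
        aeval (Sum.elim a b) (rename Sum.inr (A k)) = aeval b (A k) := by
      intro M _ _ a b k
      rw [aeval_rename]
      rfl
    have hB : IsBiForm B m e := by
      have e0 : ∀ k, rename (Sum.inr : C.κ → ι ⊕ C.κ) (A k) =
          aeval (fun i => (X (Sum.inr i) : MvPolynomial (ι ⊕ C.κ) ℂ)) (A k) := by
        intro k
        have : (rename (Sum.inr : C.κ → ι ⊕ C.κ) : MvPolynomial C.κ ℂ →ₐ[ℂ] _) =
            aeval (fun i => (X (Sum.inr i) : MvPolynomial (ι ⊕ C.κ) ℂ)) := by
          ext i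
          simp
        rw [this]
      constructor
      · apply IsWeightedHomogeneous.sum
        intro k hk
        have hk' : k ≤ m := Nat.lt_succ_iff.1 (Finset.mem_range.1 hk)
        have h1 := whom_aeval (hA k hk).1 (fun i => (X (Sum.inr i) : MvPolynomial (ι ⊕ C.κ) ℂ))
          (Sum.elim (fun _ => 1) (fun _ => 0) : ι ⊕ C.κ → ℕ) 0
          (fun i => isWeightedHomogeneous_X ℂ _ (Sum.inr i))
        rw [← e0 k] at h1
        have h2 := (isWeightedHomogeneous_X ℂ
          (Sum.elim (fun _ => 1) (fun _ => 0) : ι ⊕ C.κ → ℕ) (Sum.inl i)).pow k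
        have h3 := (isWeightedHomogeneous_X ℂ
          (Sum.elim (fun _ => 1) (fun _ => 0) : ι ⊕ C.κ → ℕ) (Sum.inl i0)).pow (m - k)
        have h4 := (h1.mul h2).mul h3
        have h5 : e * 0 + k • (Sum.elim (fun _ => 1) (fun _ => 0) : ι ⊕ C.κ → ℕ) (Sum.inl i) +
            (m - k) • (Sum.elim (fun _ => 1) (fun _ => 0) : ι ⊕ C.κ → ℕ) (Sum.inl i0) = m := by
          simp only [Sum.elim_inl, smul_eq_mul]
          omega
        rw [h5] at h4
        exact h4
      · apply IsWeightedHomogeneous.sum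
        intro k hk
        have h1 := whom_aeval (hA k hk).1 (fun i => (X (Sum.inr i) : MvPolynomial (ι ⊕ C.κ) ℂ))
          (Sum.elim (fun _ => 0) (fun _ => 1) : ι ⊕ C.κ → ℕ) 1
          (fun i => isWeightedHomogeneous_X ℂ _ (Sum.inr i))
        rw [← e0 k] at h1
        have h2 := (isWeightedHomogeneous_X ℂ
          (Sum.elim (fun _ => 0) (fun _ => 1) : ι ⊕ C.κ → ℕ) (Sum.inl i)).pow k
        have h3 := (isWeightedHomogeneous_X ℂ
          (Sum.elim (fun _ => 0) (fun _ => 1) : ι ⊕ C.κ → ℕ) (Sum.inl i0)).pow (m - k)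
        have h4 := (h1.mul h2).mul h3
        have h5 : e * 1 + k • (Sum.elim (fun _ => 0) (fun _ => 1) : ι ⊕ C.κ → ℕ) (Sum.inl i) +
            (m - k) • (Sum.elim (fun _ => 0) (fun _ => 1) : ι ⊕ C.κ → ℕ) (Sum.inl i0) = e := by
          simp only [Sum.elim_inl, smul_eq_mul]
          omega
        rw [h5] at h4
        exact h4
    have hval : ∀ (M : Type) [Field M] [Algebra ℂ M] (a : ι → M) (b : C.κ → M),
        aeval (Sum.elim a b) B = ∑ k ∈ Finset.range (m + 1),
          aeval b (A k) * a i ^ k * a i0 ^ (m - k) := by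
      intro M _ _ a b
      simp only [B, map_sum, map_mul, map_pow, hren, aeval_X, Sum.elim_inl]
    have hgen : aeval (Sum.elim (fun i => C.φ (W.f i)) (fun j => C.ψ (C.T.f j))) B = 0 := by
      rw [hval]
      have h1 : ∀ k ∈ Finset.range (m + 1), aeval (fun j => C.ψ (C.T.f j)) (A k) *
          C.φ (W.f i) ^ k * C.φ (W.f i0) ^ (m - k) =
          C.ψ w * C.φ (W.f i0) ^ m * ((P.coeff k : C.L) * (C.φ (W.f i) / C.φ (W.f i0)) ^ k) := by
        intro k hk
        have hk' : k ≤ m := Nat.lt_succ_iff.1 (Finset.mem_range.1 hk)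
        have h2 : aeval (fun j => C.ψ (C.T.f j)) (A k) = C.ψ (aeval C.T.f (A k)) := by
          rw [comp_aeval_apply]
        rw [h2, (hA k hk).2, map_mul, hc k]
        have h3 : C.φ (W.f i0) ^ m = C.φ (W.f i0) ^ (m - k) * C.φ (W.f i0) ^ k := by
          rw [← pow_add]; congr 1; omega
        rw [h3, div_pow]
        field_simp
      rw [Finset.sum_congr rfl h1, ← Finset.mul_sum]
      have h4 : ∑ k ∈ Finset.range (m + 1), (P.coeff k : C.L) *
          (C.φ (W.f i) / C.φ (W.f i0)) ^ k = 0 := by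
        rw [← hP, Polynomial.aeval_eq_sum_range]
        apply Finset.sum_congr rfl
        intro k _
        rw [Algebra.smul_def]
        rfl
      rw [h4, mul_zero]
    have h5 := hpτ m e B hB hgen
    rw [← aeval_eq_eval] at h5
    have h6 := hval ℂ p.rep τ.rep
    rw [aeval_eq_eval τ.rep] at h6
    exact h6.symm.trans h5

/-- A family which is generically finite over `T` has a finite member. -/
lemma exists_finite_member {ι : Type} [Fintype ι] {W : ProjVar ι} (C : Family W) (i0 : ι)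
    (hi0 : W.f i0 ≠ 0)
    (halg : ∀ i, IsAlgebraic C.ψ.fieldRange (C.φ (W.f i) / C.φ (W.f i0))) :
    ∃ τ ∈ C.T.pts, (C.member τ).Finite := by
  classical
  choose m e A hA hA0 hrel using fun i => exists_biform C i0 i hi0 (halg i)
  -- the bad locus
  have hG : IsForm (∏ i, A i (m i)) (∑ i, e i) :=
    IsHomogeneous.prod _ _ _ fun i _ => hA i (m i) (Finset.self_mem_range_succ _)
  obtain ⟨τ, hτ, hτG⟩ : ∃ τ ∈ C.T.pts, eval τ.rep (∏ i, A i (m i)) ≠ 0 := by
    by_contra hcon
    push Not at hcon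
    have h1 := stmt_A4 C.κ C.T.K C.T.f C.T.f_ne _ _ hG hcon
    rw [map_prod] at h1
    exact (Finset.prod_ne_zero_iff.2 fun i _ => hA0 i) h1
  refine ⟨τ, hτ, ?_⟩
  have hlead : ∀ i, eval τ.rep (A i (m i)) ≠ 0 := by
    rw [map_prod] at hτG
    intro i
    exact (Finset.prod_ne_zero_iff.1 hτG) i (Finset.mem_univ i)
  -- the polynomials
  let Q : ι → Polynomial ℂ := fun i => ∑ k ∈ Finset.range (m i + 1),
    Polynomial.C (eval τ.rep (A i k)) * Polynomial.X ^ k
  have hQ0 : ∀ i, Q i ≠ 0 := by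
    intro i h0
    apply hlead i
    have h1 : (Q i).coeff (m i) = eval τ.rep (A i (m i)) := by
      simp only [Q, Polynomial.finsetSum_coeff, Polynomial.coeff_C_mul_X_pow]
      rw [Finset.sum_ite_eq]
      rw [if_pos (Finset.self_mem_range_succ _)]
    rw [← h1, h0, Polynomial.coeff_zero]
  have hne0 : ∀ p ∈ C.member τ, p.rep i0 ≠ 0 := by
    intro p hp h0
    apply p.rep_nonzero
    funext i
    have h1 := hrel i p τ hp
    rw [Finset.sum_range_succ] at h1
    have h2 : ∑ k ∈ Finset.range (m i), eval τ.rep (A i k) * p.rep i ^ k *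
        p.rep i0 ^ (m i - k) = 0 := by
      apply Finset.sum_eq_zero
      intro k hk
      have : m i - k ≠ 0 := by have := Finset.mem_range.1 hk; omega
      rw [h0, zero_pow this, mul_zero]
    rw [h2, zero_add, Nat.sub_self, pow_zero, mul_one] at h1
    have h3 := (mul_eq_zero.1 h1).resolve_left (hlead i)
    by_cases hm0 : m i = 0
    · rw [hm0, pow_zero] at h3
      exact absurd h3 one_ne_zero
    · exact (pow_eq_zero_iff hm0).1 h3
  have hroot : ∀ p ∈ C.member τ, ∀ i, (Q i).IsRoot (p.rep i / p.rep i0) := by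
    intro p hp i
    have h0 := hne0 p hp
    have h1 := hrel i p τ hp
    rw [Polynomial.IsRoot.def]
    have h2 : (Q i).eval (p.rep i / p.rep i0) * p.rep i0 ^ (m i) =
        ∑ k ∈ Finset.range (m i + 1), eval τ.rep (A i k) * p.rep i ^ k *
          p.rep i0 ^ (m i - k) := by
      simp only [Q, Polynomial.eval_finsetSum, Polynomial.eval_mul, Polynomial.eval_C,
        Polynomial.eval_pow, Polynomial.eval_X]
      rw [Finset.sum_mul]
      apply Finset.sum_congr rfl
      intro k hk
      have hk' : k ≤ m i := Nat.lt_succ_iff.1 (Finset.mem_range.1 hk)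
      have h3 : p.rep i0 ^ (m i) = p.rep i0 ^ (m i - k) * p.rep i0 ^ k := by
        rw [← pow_add]; congr 1; omega
      rw [h3, div_pow]
      field_simp
    rw [h1] at h2
    exact (mul_eq_zero.1 h2).resolve_right (pow_ne_zero _ h0)
  apply Set.Finite.of_injOn (f := fun p : PSpace ι => fun i => p.rep i / p.rep i0)
    (t := Set.pi Set.univ fun i => {z | (Q i).IsRoot z})
  · intro p hp i _
    exact hroot p hp i
  · intro p hp q hq hpq
    exact eq_of_ratios (hne0 p hp) (hne0 q hq) fun j => congrFun hpq j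
  · exact Set.Finite.pi fun i => Polynomial.finite_setOfPred_isRoot (hQ0 i)

end Pool.Agent.MPad0563
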