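import Pool.Agent.Work.MP_ad0563_ag_helper80.P3a
import Pool.Agent.Work.MP_ad0563_ag_helper72.FibreP1

/-!
# Block P3, part b: fibres of `W × ℙ² → ℙ¹` inside a member
-/

open MvPolynomial

namespace Pool.Agent.MPad0563

lemma whom_aeval' {σ τ : Type} {w : σ → ℕ} {F : MvPolynomial σ ℂ} {n : ℕ}
    (hF : F.IsWeightedHomogeneous w n) (Φ : σ → MvPolynomial τ ℂ) (w' : τ → ℕ)
    (hΦ : ∀ i, (Φ i).IsWeightedHomogeneous w' (w i)) :
    (aeval Φ F).IsWeightedHomogeneous w' n := by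
  classical
  rw [F.as_sum, map_sum]
  apply IsWeightedHomogeneous.sum
  intro e he
  rw [aeval_monomial]
  have h1 : (algebraMap ℂ (MvPolynomial τ ℂ) (coeff e F)).IsWeightedHomogeneous w' 0 :=
    isWeightedHomogeneous_C w' _
  have h2 : (e.prod fun i k => Φ i ^ k).IsWeightedHomogeneous w'
      (∑ i ∈ e.support, e i • w i) := by
    apply IsWeightedHomogeneous.prod
    intro i _
    exact (hΦ i).pow _
  have h3 := h1.mul h2
  have h4 : 0 + ∑ i ∈ e.support, e i • w i = n := by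
    have h5 := hF (mem_support_iff.1 he)
    rw [Finsupp.weight_apply] at h5
    rw [zero_add, ← h5]
    rfl
  rw [h4] at h3
  exact h3

lemma aeval_aeval' {σ τ M : Type} [Field M] [Algebra ℂ M] (Φ : σ → MvPolynomial τ ℂ)
    (F : MvPolynomial σ ℂ) (a : τ → M) :
    aeval a (aeval Φ F) = aeval (fun s => aeval a (Φ s)) F := by
  have h2 : (aeval a).comp (aeval Φ : MvPolynomial σ ℂ →ₐ[ℂ] MvPolynomial τ ℂ) =
          aeval (fun j => aeval a (Φ j)) := by
    ext j
    simp
  exact congrArg (fun φ => φ F) h2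

section fib
variable {J κ L : Type} [Field L] [Algebra ℂ L]

/-- the fibre over `l` -/
def fibJ (J : Type) (l : Fin 2 → ℂ) : Set (PSpace (Fin 2 × J)) :=
  {p | ∀ j, p.rep (1, j) * l 0 = p.rep (0, j) * l 1}

lemma ratio_of_fib {l : Fin 2 → ℂ} (hl : l ≠ 0) {z : Fin 2 → ℂ} (h : z 1 * l 0 = z 0 * l 1) :
    ∃ μ, ∀ i, z i = μ * l i := by
  by_cases h0 : l 0 = 0
  · have h1 : l 1 ≠ 0 := by
      intro h1
      apply hl
      funext i
      fin_cases i
      · exact h0
      · exact h1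
    have h2 : z 0 = 0 := by
      rw [h0, mul_zero] at h
      exact (mul_eq_zero.1 h.symm).resolve_right h1
    refine ⟨z 1 / l 1, fun i => ?_⟩
    fin_cases i
    · show z 0 = z 1 / l 1 * l 0
      rw [h0, h2, mul_zero]
    · show z 1 = z 1 / l 1 * l 1
      field_simp
  · refine ⟨z 0 / l 0, fun i => ?_⟩
    fin_cases i
    · show z 0 = z 0 / l 0 * l 0
      field_simp
    · show z 1 = z 0 / l 0 * l 1
      field_simp
      linear_combination h

lemma pair_lift (f : Fin 2 × J → L) (g : κ → L) (s : Fin 2 → L) (c : J → L)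
    (hf : ∀ i j, f (i, j) = s i * c j) {p : PSpace (Fin 2 × J)} {q : PSpace κ}
    (hpq : (p, q) ∈ closedPairs f g) (l : Fin 2 → ℂ) (hl : l ≠ 0) (hp : p ∈ fibJ J l)
    (hw : tens q.rep l ≠ 0) :
    (p, Projectivization.mk ℂ (tens q.rep l) hw) ∈ closedPairs f (tens g s) := by
  have hp' : Projectivization.mk ℂ p.rep p.rep_nonzero = p := p.mk_rep
  rw [← hp', stmt_A0']
  intro d e F hF hF0
  obtain ⟨⟨i0, j0⟩, hij⟩ : ∃ j, p.rep j ≠ 0 := Function.ne_iff.1 p.rep_nonzero
  obtain ⟨μ, hμ⟩ := ratio_of_fib hl (z := fun i => p.rep (i, j0)) (hp j0)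
  have hμ0 : μ ≠ 0 := by
    rintro rfl
    exact hij (by rw [hμ i0, zero_mul])
  let Φ : (Fin 2 × J) ⊕ (κ × Fin 2) → MvPolynomial ((Fin 2 × J) ⊕ κ) ℂ :=
    Sum.elim (fun i => X (Sum.inl i)) (fun k => X (Sum.inr k.1) * X (Sum.inl (k.2, j0)))
  have hX : ∀ (w : (Fin 2 × J) ⊕ κ → ℕ) i, (X i : MvPolynomial ((Fin 2 × J) ⊕ κ) ℂ).IsWeightedHomogeneous
    w (w i) := fun w i => isWeightedHomogeneous_X ℂ w i
  have hB : IsBiForm (aeval Φ F) (d + e) e := by
    constructor
    · apply whom_aeval' (isForm_of_isBiForm hF)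
      rintro (i | ⟨k, i⟩)
      · exact hX _ _
      · exact (hX _ (Sum.inr k)).mul (hX _ (Sum.inl (i, j0)))
    · apply whom_aeval' hF.2
      rintro (i | ⟨k, i⟩)
      · exact hX _ _
      · exact (hX _ (Sum.inr k)).mul (hX _ (Sum.inl (i, j0)))
  have hval : ∀ (M : Type) [Field M] [Algebra ℂ M] (a : Fin 2 × J → M) (b : κ → M)
      (u : Fin 2 → M) (c0 : M), (∀ i, a (i, j0) = c0 * u i) →
      aeval (Sum.elim a b) (aeval Φ F) = c0 ^ e * aeval (Sum.elim a (tens b u)) F := by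
    intro M _ _ a b u c0 hc0
    rw [aeval_aeval']
    have h1 := aeval_biform_smul hF (1 : M) c0 a (tens b u)
    rw [one_pow, one_mul] at h1
    rw [← h1]
    congr 2
    funext i
    rcases i with i | ⟨k, i⟩
    · simp [Φ]
    · simp only [Φ, Sum.elim_inr, map_mul, aeval_X, Sum.elim_inl, hc0, tens]
      ring
  have h1 := hpq _ _ _ hB (by
    rw [hval L f g s (c j0) (fun i => by rw [hf]; ring), hF0, mul_zero])
  have h2 := hval ℂ p.rep q.rep l μ hμ
  rw [aeval_eq_eval, aeval_eq_eval] at h2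
  rw [h1] at h2
  exact (mul_eq_zero.1 h2.symm).resolve_left (pow_ne_zero _ hμ0)

lemma pair_descend (f : Fin 2 × J → L) (g : κ → L) (s : Fin 2 → L) (c : J → L)
    (hf : ∀ i j, f (i, j) = s i * c j) {p : PSpace (Fin 2 × J)} {q : PSpace κ}
    (l : Fin 2 → ℂ) (hl : l ≠ 0) (hw : tens q.rep l ≠ 0)
    (h : (p, Projectivization.mk ℂ (tens q.rep l) hw) ∈ closedPairs f (tens g s)) :
    (p, q) ∈ closedPairs f g ∧ p ∈ fibJ J l := by
  have hp' : Projectivization.mk ℂ p.rep p.rep_nonzero = p := p.mk_rep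
  rw [← hp', stmt_A0'] at h
  constructor
  · intro d e F hF hF0
    obtain ⟨i1, hi1⟩ : ∃ i, l i ≠ 0 := Function.ne_iff.1 hl
    let Φ : (Fin 2 × J) ⊕ κ → MvPolynomial ((Fin 2 × J) ⊕ (κ × Fin 2)) ℂ :=
      Sum.elim (fun i => X (Sum.inl i)) (fun k => X (Sum.inr (k, i1)))
    have hB : IsBiForm (aeval Φ F) d e := by
      constructor
      · apply whom_aeval' hF.1
        rintro (i | k)
        · exact isWeightedHomogeneous_X ℂ _ _
        · exact isWeightedHomogeneous_X ℂ _ _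
      · apply whom_aeval' hF.2
        rintro (i | k)
        · exact isWeightedHomogeneous_X ℂ _ _
        · exact isWeightedHomogeneous_X ℂ _ _
    have hval : ∀ (M : Type) [Field M] [Algebra ℂ M] (a : Fin 2 × J → M) (b : κ → M)
        (u : Fin 2 → M),
        aeval (Sum.elim a (tens b u)) (aeval Φ F) = u i1 ^ e * aeval (Sum.elim a b) F := by
      intro M _ _ a b u
      rw [aeval_aeval']
      have h1 := aeval_biform_smul hF (1 : M) (u i1) a b
      rw [one_pow, one_mul] at h1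
      rw [← h1]
      congr 2
      funext i
      rcases i with i | k
      · simp [Φ]
      · simp only [Φ, Sum.elim_inr, aeval_X, tens]
        ring
    have h1 := h _ _ _ hB (by rw [hval, hF0, mul_zero])
    have h2 := hval ℂ p.rep q.rep l
    rw [aeval_eq_eval, aeval_eq_eval] at h2
    rw [h1] at h2
    exact (mul_eq_zero.1 h2.symm).resolve_left (pow_ne_zero _ hi1)
  · intro j
    obtain ⟨k, hk⟩ : ∃ k, q.rep k ≠ 0 := Function.ne_iff.1 q.rep_nonzero
    let F : MvPolynomial ((Fin 2 × J) ⊕ (κ × Fin 2)) ℂ :=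
      X (Sum.inl (1, j)) * X (Sum.inr (k, 0)) - X (Sum.inl (0, j)) * X (Sum.inr (k, 1))
    have hX : ∀ (w : (Fin 2 × J) ⊕ (κ × Fin 2) → ℕ) i,
        (X i : MvPolynomial ((Fin 2 × J) ⊕ (κ × Fin 2)) ℂ).IsWeightedHomogeneous
      w (w i) := fun w i => isWeightedHomogeneous_X ℂ w i
    have hB : IsBiForm F 1 1 := by
      constructor
      · exact ((hX _ (Sum.inl (1, j))).mul (hX _ (Sum.inr (k, 0)))).sub
          ((hX _ (Sum.inl (0, j))).mul (hX _ (Sum.inr (k, 1))))
      · exact ((hX _ (Sum.inl (1, j))).mul (hX _ (Sum.inr (k, 0)))).sub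
          ((hX _ (Sum.inl (0, j))).mul (hX _ (Sum.inr (k, 1))))
    have h1 := h _ _ _ hB (by
      simp only [F, map_sub, map_mul, aeval_X, Sum.elim_inl, Sum.elim_inr, tens, hf]
      ring)
    simp only [F, map_sub, map_mul, eval_X, Sum.elim_inl, Sum.elim_inr, tens] at h1
    apply mul_left_cancel₀ hk
    linear_combination h1

end fib

end Pool.Agent.MPad0563
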