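import Pool.Agent.Work.MP_ad0563_ag.Cubic
import Pool.Agent.Work.MP_ad0563_ag.BlockA
import Pool.Agent.Work.MP_ad0563_ag_h67.E1
import Pool.Agent.Work.MP_ad0563_ag_h67.E2a

/-!
# Block P4: very general points of `W × ℙ²` in different fibres
-/

open MvPolynomial

namespace Pool.Agent.MPad0563

/-- coordinates of `W × ℙ²` over a ring. -/
def coordWr {R : Type} [CommRing R] (t x y a b : R) : Fin 2 × (Cub 2 × Fin 3) → R :=
  tens ![1, t] (tens (cub ![1, t] x y) ![1, a, b])

lemma coordW_eq_coordWr {K : Type} [Field K] (t x y a b : K) :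
    coordW t x y a b = coordWr t x y a b := rfl

lemma map_coordWr {R S : Type} [CommRing R] [CommRing S] (φ : R →+* S) (t x y a b : R)
    (i : Fin 2 × (Cub 2 × Fin 3)) :
    φ (coordWr t x y a b i) = coordWr (φ t) (φ x) (φ y) (φ a) (φ b) i := by
  obtain ⟨i, j, k⟩ := i
  have h2 : ∀ i : Fin 2, φ ((![1, t] : Fin 2 → R) i) = (![1, φ t] : Fin 2 → S) i := by
    intro i; fin_cases i <;> simp
  have h3 : ∀ k : Fin 3, φ ((![1, a, b] : Fin 3 → R) k) = (![1, φ a, φ b] : Fin 3 → S) k := by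
    intro k; fin_cases k <;> simp
  have hxy : ∀ k : Fin 2, φ ((![x, y] : Fin 2 → R) k) = (![φ x, φ y] : Fin 2 → S) k := by
    intro k; fin_cases k <;> simp
  rcases j with ⟨j1, j2, j3⟩ | j
  · simp only [coordWr, tens, cub, Sum.elim_inl, map_mul, h2, h3]
  · simp only [coordWr, tens, cub, Sum.elim_inr, map_mul, h2, h3, hxy]

/-- a general complex point of the datum, over a countable field. -/
lemma p4_point {K : Type} [Field K] [Algebra ℂ K] {t x y a b : K} (h : IsDatum t x y a b)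
    (ht : Transcendental ℂ t)
    (G : ℕ → MvPolynomial (Fin 2 × (Cub 2 × Fin 3)) ℂ)
    (hG : ∀ m, aeval (coordW t x y a b) (G m) ≠ 0) (c : ℂ) :
    ∃ t0 x0 y0 a0 b0 : ℂ, x0 ^ 3 + y0 ^ 3 + 1 + t0 ^ 9 = 0 ∧ t0 ≠ c ∧
      ∀ m, eval (coordW t0 x0 y0 a0 b0) (G m) ≠ 0 := by
  classical
  -- the countable field
  let S : Set ℂ := ⋃ m, (Set.range fun e => coeff e (G m))
  have hS : S.Countable := Set.countable_iUnion fun m => Set.countable_range _
  let k0 : IntermediateField ℚ ℂ := IntermediateField.adjoin ℚ S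
  have hk0 : Countable k0 := countable_adjoin hS
  let N : IntermediateField k0 K := IntermediateField.adjoin k0 ({t, x, y, a, b} : Set K)
  have hN : Countable N := countable_adjoin (Set.toFinite _).countable
  have mt : t ∈ N := IntermediateField.subset_adjoin _ _ (by simp)
  have mx : x ∈ N := IntermediateField.subset_adjoin _ _ (by simp)
  have my : y ∈ N := IntermediateField.subset_adjoin _ _ (by simp)
  have ma : a ∈ N := IntermediateField.subset_adjoin _ _ (by simp)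
  have mb : b ∈ N := IntermediateField.subset_adjoin _ _ (by simp)
  have htr : Transcendental k0 (⟨t, mt⟩ : N) := by
    intro halg
    apply ht
    have h1 : IsAlgebraic k0 t := by
      have := halg.algebraMap (A := K)
      exact this
    exact h1.extendScalars (algebraMap k0 ℂ).injective
  obtain ⟨σ, hσ⟩ := exists_embedding_ne htr c
  refine ⟨σ ⟨t, mt⟩, σ ⟨x, mx⟩, σ ⟨y, my⟩, σ ⟨a, ma⟩, σ ⟨b, mb⟩, ?_, hσ, ?_⟩
  · have h1 : (⟨x, mx⟩ : N) ^ 3 + ⟨y, my⟩ ^ 3 + 1 + ⟨t, mt⟩ ^ 9 = 0 := by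
      apply Subtype.ext
      exact h.rel
    have h2 := congrArg σ h1
    simpa only [map_add, map_pow, map_one, map_zero] using h2
  · intro m
    -- G m is defined over k0
    obtain ⟨G', hG'⟩ : ∃ G' : MvPolynomial (Fin 2 × (Cub 2 × Fin 3)) k0,
        MvPolynomial.map (algebraMap k0 ℂ) G' = G m := by
      have : G m ∈ Set.range
          (MvPolynomial.map (σ := Fin 2 × (Cub 2 × Fin 3)) (algebraMap k0 ℂ)) := by
        rw [MvPolynomial.mem_range_map_iff_coeffs_subset]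
        intro r hr
        rw [Finset.mem_coe, MvPolynomial.mem_coeffs_iff] at hr
        obtain ⟨e, _, rfl⟩ := hr
        have hmem : coeff e (G m) ∈ k0 :=
          IntermediateField.subset_adjoin _ _ (Set.mem_iUnion.2 ⟨m, e, rfl⟩)
        exact ⟨⟨_, hmem⟩, rfl⟩
      exact this
    let cN : Fin 2 × (Cub 2 × Fin 3) → N :=
      coordWr ⟨t, mt⟩ ⟨x, mx⟩ ⟨y, my⟩ ⟨a, ma⟩ ⟨b, mb⟩
    have h1 : algebraMap N K (aeval cN G') = aeval (coordW t x y a b) (G m) := by
      rw [← hG', aeval_map_algebraMap, ← aeval_algebraMap_apply]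
      congr 2
      funext i
      show (algebraMap N K : N →+* K) (cN i) = _
      rw [map_coordWr]
      rfl
    have h2 : σ (aeval cN G') = eval (coordW (σ ⟨t, mt⟩) (σ ⟨x, mx⟩) (σ ⟨y, my⟩) (σ ⟨a, ma⟩)
        (σ ⟨b, mb⟩)) (G m) := by
      rw [← hG', ← aeval_eq_eval]
      show σ (aeval cN G') = aeval (coordW (σ ⟨t, mt⟩) (σ ⟨x, mx⟩) (σ ⟨y, my⟩) (σ ⟨a, ma⟩)
        (σ ⟨b, mb⟩)) (MvPolynomial.map (algebraMap k0 ℂ) G')
      rw [aeval_map_algebraMap, comp_aeval_apply]
      congr 2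
      funext i
      exact map_coordWr (σ : N →+* ℂ) _ _ _ _ _ i
    rw [← h2]
    intro h3
    apply hG m
    rw [← h1]
    have h4 : aeval cN G' = 0 := by
      apply (σ : N →+* ℂ).injective
      rw [map_zero]
      exact h3
    rw [h4, map_zero]

lemma coordW_ne_zero {K : Type} [Field K] (t x y a b : K) : coordW t x y a b ≠ 0 := by
  intro h0
  have := congrFun h0 (0, (Sum.inl (0, 0, 0), 0))
  simp [coordW, tens, cub] at this

/-- the coordinates of `W × ℙ²` as polynomials. -/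
noncomputable def rhoW : Fin 2 × (Cub 2 × Fin 3) → Polynomial (MvPolynomial (Fin 4) ℂ) :=
  coordWr (Polynomial.C (X 0)) (Polynomial.C (X 1)) Polynomial.X (Polynomial.C (X 2))
    (Polynomial.C (X 3))

lemma evK_rhoW {K : Type} [Field K] [Algebra ℂ K] (t x y a b : K) :
    (fun s => evK t x y a b (rhoW s)) = coordW t x y a b := by
  have h0 : evK t x y a b (Polynomial.C (X 0)) = t := by simp [evK]
  have h1 : evK t x y a b (Polynomial.C (X 1)) = x := by simp [evK]
  have h2 : evK t x y a b (Polynomial.C (X 2)) = a := by simp [evK]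
  have h3 : evK t x y a b (Polynomial.C (X 3)) = b := by simp [evK]
  have h4 : evK t x y a b Polynomial.X = y := by simp [evK]
  funext s
  rw [rhoW, map_coordWr, h0, h1, h2, h3, h4]
  rfl

/-- complex points of the datum give closed points of `W × ℙ²`. -/
lemma coordW_mem_pts (hSym : Stmt_Sym) {K : Type} [Field K] [Algebra ℂ K] {t x y a b : K}
    (h : IsDatum t x y a b) {t0 x0 y0 a0 b0 : ℂ} (hrel : x0 ^ 3 + y0 ^ 3 + 1 + t0 ^ 9 = 0) :
    Projectivization.mk ℂ (coordW t0 x0 y0 a0 b0) (coordW_ne_zero _ _ _ _ _) ∈ (varW h).pts := by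
  show _ ∈ closedPts (coordW t x y a b)
  rw [stmt_A0]
  intro d F _ hF0
  have h1 := datum_specialize hSym h (a0 := a0) (b0 := b0) hrel rhoW F
    (by rw [evK_rhoW]; exact hF0)
  rwa [evK_rhoW] at h1

lemma mem_fibW_coordW {t0 x0 y0 a0 b0 : ℂ} {l : Fin 2 → ℂ}
    (h : Projectivization.mk ℂ (coordW t0 x0 y0 a0 b0) (coordW_ne_zero _ _ _ _ _) ∈ fibW l) :
    t0 * l 0 = l 1 := by
  obtain ⟨c, hc⟩ := Projectivization.exists_smul_eq_mk_rep ℂ (coordW t0 x0 y0 a0 b0)
    (coordW_ne_zero _ _ _ _ _)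
  have h1 := h (Sum.inl (0, 0, 0), 0)
  rw [← hc] at h1
  simp only [Pi.smul_apply, coordW, tens, cub] at h1
  simp only [Units.smul_def, smul_eq_mul, Sum.elim_inl, Matrix.cons_val_zero,
    Matrix.cons_val_one, mul_one] at h1
  have hc0 : (c : ℂ) ≠ 0 := c.ne_zero
  apply mul_left_cancel₀ hc0
  linear_combination h1

theorem stmt_P4_of (hSym : Stmt_Sym) : Stmt_P4 := by
  intro K _ _ t x y a b h G hGf hG
  have ht : Transcendental ℂ t := by
    have := (hSym K t x y a b h).2.2.2.2.1.transcendental 0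
    exact this
  obtain ⟨t0, x0, y0, a0, b0, hrel, -, hne⟩ := p4_point h ht G hG 0
  obtain ⟨t1, x1, y1, a1, b1, hrel1, ht1, hne1⟩ := p4_point h ht G hG t0
  have hrep : ∀ (t0 x0 y0 a0 b0 : ℂ) (m : ℕ), eval (coordW t0 x0 y0 a0 b0) (G m) ≠ 0 →
      eval (Projectivization.mk ℂ (coordW t0 x0 y0 a0 b0) (coordW_ne_zero _ _ _ _ _)).rep (G m)
        ≠ 0 := by
    intro t0 x0 y0 a0 b0 m hm
    obtain ⟨d, hd⟩ := hGf m
    obtain ⟨c, hc⟩ := Projectivization.exists_smul_eq_mk_rep ℂ (coordW t0 x0 y0 a0 b0)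
      (coordW_ne_zero _ _ _ _ _)
    have e : (Projectivization.mk ℂ (coordW t0 x0 y0 a0 b0) (coordW_ne_zero _ _ _ _ _)).rep =
        fun i => (c : ℂ) * coordW t0 x0 y0 a0 b0 i := by rw [← hc]; rfl
    rw [e, eval_form_smul hd]
    exact mul_ne_zero (pow_ne_zero _ c.ne_zero) hm
  refine ⟨_, coordW_mem_pts hSym h hrel (a0 := a0) (b0 := b0), _,
    coordW_mem_pts hSym h hrel1 (a0 := a1) (b0 := b1),
    fun m => hrep _ _ _ _ _ m (hne m), fun m => hrep _ _ _ _ _ m (hne1 m), ?_⟩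
  intro l hl hp hq
  have e0 := mem_fibW_coordW hp
  have e1 := mem_fibW_coordW hq
  have h2 : (t1 - t0) * l 0 = 0 := by linear_combination e1 - e0
  have h3 : l 0 = 0 := by
    rcases mul_eq_zero.1 h2 with h4 | h4
    · exact absurd (sub_eq_zero.1 h4) ht1
    · exact h4
  apply hl
  funext i
  fin_cases i
  · exact h3
  · show l 1 = 0
    rw [← e0, h3, mul_zero]

end Pool.Agent.MPad0563
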